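import Pool.Agent.helper90.ZD.SpecB
import Pool.Agent.helper59.DM.DV

/-!
# Project zd (MP_4467b5_nt), module BA: the alternative (A)
-/

set_option autoImplicit false

open Complex MeasureTheory

namespace Pool.Agent.ZD

open Pool.Agent.helper84.DM Pool.Agent.helper78.ED Pool.Agent.DH

theorem BA_q3_nonneg (W : Finset ℝ) : 0 ≤ q3 W := by
  unfold q3
  exact intervalIntegral.integral_nonneg (by norm_num) fun x _ => by positivity

theorem BA_SD_nonneg (X : ℝ) (W : Finset ℝ) : 0 ≤ SD X W := by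
  unfold SD
  refine Finset.sum_nonneg fun t _ => Finset.sum_nonneg fun t' _ => ?_
  split_ifs
  · exact le_refl _
  · positivity

theorem BA_S0_nonneg (δ T : ℝ) (W : Finset ℝ) (hT : 0 ≤ T) : 0 ≤ S0 δ T W := by
  unfold S0
  positivity

theorem BA_QW_nonneg (W : Finset ℝ) (L : ℕ) : 0 ≤ QW W L := by
  unfold QW
  exact Finset.sum_nonneg fun t _ => Finset.sum_nonneg fun t' _ => by positivity

/-- The bound for `SD`. -/
theorem BA_SD (h5 : BR4_stmt) (h6 : R3_stmt) (ε δ : ℝ) (hε : 0 < ε) (hδ : 0 < δ)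
    (hδ1 : δ ≤ 1 / 10) : ∃ C T₀ : ℝ, 0 < C ∧ ∀ T : ℝ, T₀ ≤ T → ∀ W : Finset ℝ, Sep δ T W →
    ∀ X : ℝ, T ^ (2 / 3 * (1 + δ)) ≤ X → X ≤ T →
    SD X W ≤ C * T ^ ε * (X * S0 δ T W) := by
  obtain ⟨C₅, T₅, hC₅, H5⟩ := h5 (ε / 2) δ (by linarith) hδ (by linarith)
  obtain ⟨C₆, T₆, hC₆, H6⟩ := h6 (ε / 2) δ (by linarith) hδ hδ1
  refine ⟨C₆ * C₅, max 2 (max T₅ T₆), by positivity, fun T hT W hW X hX hXT => ?_⟩
  have hT2 : 2 ≤ T := le_trans (le_max_left _ _) hT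
  have hT5 : T₅ ≤ T := le_trans (le_trans (le_max_left _ _) (le_max_right _ _)) hT
  have hT6 : T₆ ≤ T := le_trans (le_trans (le_max_right _ _) (le_max_right _ _)) hT
  have hT0 : 0 < T := by linarith
  have hT1 : 1 ≤ T := by linarith
  have hX0 : 0 < X := lt_of_lt_of_le (Real.rpow_pos_of_pos hT0 _) hX
  have hX12 : T ^ (1 / 2 : ℝ) ≤ X :=
    le_trans (Real.rpow_le_rpow_of_exponent_le hT1 (by linarith)) hX
  have hTd : T ≤ T ^ (1 + δ) := by
    calc T = T ^ (1 : ℝ) := (Real.rpow_one T).symm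
      _ ≤ T ^ (1 + δ) := Real.rpow_le_rpow_of_exponent_le hT1 (by linarith)
  have hX1 : X ≤ T ^ (1 + δ) := hXT.trans hTd
  have hq1 : 1 ≤ T ^ (1 + δ) / X := by rwa [one_le_div hX0]
  have hq2 : T ^ (1 + δ) / X ≤ T ^ ((1 + δ) / 3) := by
    rw [div_le_iff₀ hX0]
    calc T ^ (1 + δ) = T ^ ((1 + δ) / 3) * T ^ (2 / 3 * (1 + δ)) := by
          rw [← Real.rpow_add hT0]
          congr 1
          ring
      _ ≤ T ^ ((1 + δ) / 3) * X := mul_le_mul_of_nonneg_left hX (by positivity)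
  have hq3 : 1 ≤ T ^ ((1 + δ) / 3) := hq1.trans hq2
  set h : ℕ := ⌈T ^ (1 + δ) / X⌉₊ with hh
  have hh1 : T ^ (1 + δ) / X ≤ (h : ℝ) := Nat.le_ceil _
  have hh2 : (h : ℝ) ≤ 2 * T ^ ((1 + δ) / 3) := by
    have := (Nat.ceil_lt_add_one (by linarith : 0 ≤ T ^ (1 + δ) / X)).le
    linarith
  have hh3 : 1 ≤ h := by
    have : (1 : ℝ) ≤ (h : ℝ) := hq1.trans hh1
    exact_mod_cast this
  have hh4 : (h : ℝ) ≤ T ^ (6 : ℕ) := by
    have e1 : T ^ ((1 + δ) / 3) ≤ T := by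
      calc T ^ ((1 + δ) / 3) ≤ T ^ (1 : ℝ) :=
            Real.rpow_le_rpow_of_exponent_le hT1 (by linarith)
        _ = T := Real.rpow_one T
    calc (h : ℝ) ≤ 2 * T ^ ((1 + δ) / 3) := hh2
      _ ≤ T * T := mul_le_mul hT2 e1 (by positivity) hT0.le
      _ = T ^ 2 := by ring
      _ ≤ T ^ (6 : ℕ) := pow_le_pow_right₀ hT1 (by norm_num)
  have hh0 : (0 : ℝ) < h := lt_of_lt_of_le (by linarith) hh1
  have a1 := H6 T hT6 W hW X hX12 hX1 h hh1 hh4
  have a2 := H5 T hT5 W hW h hh3 hh2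
  have a3 : (h : ℝ) * SD X W ≤ h * (C₆ * C₅ * T ^ ε * (X * S0 δ T W)) := by
    calc (h : ℝ) * SD X W ≤ C₆ * T ^ (ε / 2) * X * QW W h := a1
      _ ≤ C₆ * T ^ (ε / 2) * X * (C₅ * T ^ (ε / 2) * h * S0 δ T W) :=
          mul_le_mul_of_nonneg_left a2 (by positivity)
      _ = h * (C₆ * C₅ * (T ^ (ε / 2) * T ^ (ε / 2)) * (X * S0 δ T W)) := by ring
      _ = h * (C₆ * C₅ * T ^ ε * (X * S0 δ T W)) := by
          rw [← Real.rpow_add hT0]
          congr 4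
          ring
  exact le_of_mul_le_mul_left a3 hh0

theorem BA (h1 : BHS_stmt) (h2 : BAR_stmt) (h3 : BQ2_stmt) (h4 : BMU_stmt) (h5 : BR4_stmt)
    (h6 : R3_stmt) (h7 : CUB_stmt) : BA_stmt := by
  intro ε δ hε hδ hδ1
  obtain ⟨Cd, hCd, Hd⟩ := divisor_bound (ε / 6) (by linarith)
  obtain ⟨Cs, Ts, hCs, Hs⟩ := BA_SD h5 h6 (ε / 2) δ (by linarith) hδ hδ1
  obtain ⟨Cc, Tc, hCc, Hc⟩ := h7 (ε / 2) δ (by linarith) hδ hδ1
  set D₁ : ℝ := Cd * (32 : ℝ) ^ (ε / 6) with hD₁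
  have hD₁0 : 0 < D₁ := by positivity
  set C₁ : ℝ := 5376 * D₁ with hC₁
  set C₂ : ℝ := 8 * (2688 * D₁) ^ 3 * (28 * (Cc + 192 * Cs)) with hC₂
  have hC₁0 : 0 < C₁ := by positivity
  have hC₂0 : 0 < C₂ := by positivity
  refine ⟨C₁ + C₂, max 2 (max Ts Tc), by positivity, ?_⟩
  intro T hT W hW N L hL hN hNL b A V hA hV hb hD
  have hT2 : 2 ≤ T := le_trans (le_max_left _ _) hT
  have hTs : Ts ≤ T := le_trans (le_trans (le_max_left _ _) (le_max_right _ _)) hT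
  have hTc : Tc ≤ T := le_trans (le_trans (le_max_right _ _) (le_max_right _ _)) hT
  have hT0 : 0 < T := by linarith
  have hT1 : 1 ≤ T := by linarith
  have hL1 : (1 : ℝ) ≤ (L : ℝ) := by exact_mod_cast hL
  have hN1 : (1 : ℝ) ≤ (N : ℝ) :=
    le_trans (Real.one_le_rpow hT1 (by positivity)) hN
  have hN1' : 1 ≤ N := by exact_mod_cast hN1
  set X : ℝ := (N : ℝ) * L with hX
  have hNX : (N : ℝ) ≤ X := le_mul_of_one_le_right (by positivity) hL1
  have hX23 : T ^ (2 / 3 * (1 + δ)) ≤ X := hN.trans hNX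
  have hX0 : 0 < X := by linarith
  have hX1 : 1 ≤ X := by linarith
  have hX12 : T ^ (1 / 2 : ℝ) ≤ X :=
    le_trans (Real.rpow_le_rpow_of_exponent_le hT1 (by linarith)) hX23
  have hTd : T ≤ T ^ (1 + δ) := by
    calc T = T ^ (1 : ℝ) := (Real.rpow_one T).symm
      _ ≤ T ^ (1 + δ) := Real.rpow_le_rpow_of_exponent_le hT1 (by linarith)
  set R : ℝ := (W.card : ℝ) with hR
  have hR0 : 0 ≤ R := Nat.cast_nonneg _
  set S : ℝ := S0 δ T W with hS
  have hS0 : 0 ≤ S := BA_S0_nonneg δ T W hT0.le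
  set q : ℝ := q3 W with hq
  have hq0 : 0 ≤ q := BA_q3_nonneg W
  set Q : ℝ := QW W L with hQ
  have hQ0 : 0 ≤ Q := BA_QW_nonneg W L
  -- the divisor bound
  set D : ℝ := D₁ * T ^ (ε / 6) with hDdef
  have hD0 : 0 < D := by positivity
  have hdiv : ∀ k : ℕ, 1 ≤ k → k ≤ 32 * (N * L) → d k ≤ D := by
    intro k hk1 hk2
    have e1 : (k : ℝ) ≤ 32 * T := by
      have : (k : ℝ) ≤ 32 * ((N : ℝ) * L) := by exact_mod_cast hk2
      linarith
    calc d k ≤ Cd * (k : ℝ) ^ (ε / 6) := Hd k hk1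
      _ ≤ Cd * (32 * T) ^ (ε / 6) :=
          mul_le_mul_of_nonneg_left
            (Real.rpow_le_rpow (Nat.cast_nonneg _) e1 (by positivity)) hCd.le
      _ = D := by
          rw [Real.mul_rpow (by norm_num) hT0.le, hDdef, hD₁]
          ring
  have hB := h1 W N L b A V D hN1' hL hV.le hdiv hb hD
  obtain ⟨hmu0, hmu⟩ := h4 X hX1
  have hSD0 := BA_SD_nonneg X W
  set Z : ℝ := 28 * (‖CS X W‖ + 192 * X * SD X W) with hZ
  have hZ0 : 0 ≤ Z := by positivity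
  set K : ℝ := 2688 * N * A ^ 2 * D with hK
  have hK0 : 0 ≤ K := by positivity
  -- the main inequality
  have hmain : V ^ 2 * Q ≤ K * (X * L * R + Z ^ (1 / 3 : ℝ) * (L * R) ^ (1 / 3 : ℝ) *
      Q ^ (1 / 3 : ℝ)) := by
    have e1 : 14 * mu X * L * R ≤ 896 * (X * L * R) := by
      have : mu X * (L * R) ≤ 64 * X * (L * R) :=
        mul_le_mul_of_nonneg_right hmu (by positivity)
      nlinarith
    have e2 : (4 * (‖CS X W‖ + 3 * mu X * SD X W)) ^ (1 / 3 : ℝ) *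
        (7 * L * R) ^ (1 / 3 : ℝ) ≤ Z ^ (1 / 3 : ℝ) * (L * R) ^ (1 / 3 : ℝ) := by
      rw [← Real.mul_rpow (by positivity) (by positivity),
        ← Real.mul_rpow hZ0 (by positivity)]
      refine Real.rpow_le_rpow (by positivity) ?_ (by norm_num)
      have e3 : mu X * SD X W ≤ 64 * X * SD X W := mul_le_mul_of_nonneg_right hmu hSD0
      have e4 : 4 * (‖CS X W‖ + 3 * mu X * SD X W) * (7 * L * R) =
          28 * (‖CS X W‖ + 3 * (mu X * SD X W)) * (L * R) := by ring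
      rw [e4, hZ]
      refine mul_le_mul_of_nonneg_right ?_ (by positivity)
      nlinarith
    have e5 : 0 ≤ Z ^ (1 / 3 : ℝ) * (L * R) ^ (1 / 3 : ℝ) * Q ^ (1 / 3 : ℝ) := by positivity
    have e6 : (4 * (‖CS X W‖ + 3 * mu X * SD X W)) ^ (1 / 3 : ℝ) *
        (7 * L * R) ^ (1 / 3 : ℝ) * Q ^ (1 / 3 : ℝ) ≤
        Z ^ (1 / 3 : ℝ) * (L * R) ^ (1 / 3 : ℝ) * Q ^ (1 / 3 : ℝ) :=
      mul_le_mul_of_nonneg_right e2 (by positivity)
    calc V ^ 2 * Q ≤ 3 * N * A ^ 2 * D * (14 * mu X * L * R +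
          (4 * (‖CS X W‖ + 3 * mu X * SD X W)) ^ (1 / 3 : ℝ) *
            (7 * L * R) ^ (1 / 3 : ℝ) * Q ^ (1 / 3 : ℝ)) := hB
      _ ≤ 3 * N * A ^ 2 * D * (896 * (X * L * R) + 896 *
          (Z ^ (1 / 3 : ℝ) * (L * R) ^ (1 / 3 : ℝ) * Q ^ (1 / 3 : ℝ))) := by
          refine mul_le_mul_of_nonneg_left ?_ (by positivity)
          linarith
      _ = K * (X * L * R + Z ^ (1 / 3 : ℝ) * (L * R) ^ (1 / 3 : ℝ) * Q ^ (1 / 3 : ℝ)) := by
          rw [hK]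
          ring
  have hLR : (L : ℝ) * R ^ 2 ≤ Q := h3 W L
  rcases h2 V Q K X L R Z hV.le hK0 hX0.le (by linarith) hR0 hZ0 hLR hmain with hA1 | hA2
  · left
    have e1 : T ^ (ε / 6) ≤ T ^ ε := Real.rpow_le_rpow_of_exponent_le hT1 (by linarith)
    calc V ^ 2 * R ≤ 2 * K * X := hA1
      _ = C₁ * A ^ 2 * T ^ (ε / 6) * ((N : ℝ) ^ 2 * L) := by
          rw [hK, hDdef, hC₁, hX]
          ring
      _ ≤ (C₁ + C₂) * A ^ 2 * T ^ ε * ((N : ℝ) ^ 2 * L) := by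
          refine mul_le_mul_of_nonneg_right ?_ (by positivity)
          refine mul_le_mul ?_ e1 (by positivity) (by positivity)
          refine mul_le_mul_of_nonneg_right (by linarith) (by positivity)
  · right
    have f1 : SD X W ≤ Cs * T ^ (ε / 2) * (X * S) := Hs T hTs W hW X hX23 hNL
    have f2 : ‖CS X W‖ ≤ Cc * T ^ (ε / 2 + 2 * δ) * (T ^ (2 : ℕ) * R ^ (3 / 2 : ℝ) +
        X * T * q) := Hc T hTc W hW X hX12 (hNL.trans hTd)
    set M : ℝ := T ^ 2 * R ^ (3 / 2 : ℝ) + N * L * T * q + (N : ℝ) ^ 2 * (L : ℝ) ^ 2 * S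
      with hM
    have hM0 : 0 ≤ M := by positivity
    have f3 : ‖CS X W‖ ≤ Cc * T ^ (ε / 2 + 2 * δ) * M := by
      refine f2.trans (mul_le_mul_of_nonneg_left ?_ (by positivity))
      have : 0 ≤ (N : ℝ) ^ 2 * (L : ℝ) ^ 2 * S := by positivity
      rw [hM, hX]
      linarith
    have f4 : X * SD X W ≤ Cs * T ^ (ε / 2 + 2 * δ) * M := by
      calc X * SD X W ≤ X * (Cs * T ^ (ε / 2) * (X * S)) :=
            mul_le_mul_of_nonneg_left f1 hX0.le
        _ = Cs * T ^ (ε / 2) * ((N : ℝ) ^ 2 * (L : ℝ) ^ 2 * S) := by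
            rw [hX]
            ring
        _ ≤ Cs * T ^ (ε / 2 + 2 * δ) * M := by
            refine mul_le_mul ?_ ?_ (by positivity) (by positivity)
            · exact mul_le_mul_of_nonneg_left
                (Real.rpow_le_rpow_of_exponent_le hT1 (by linarith)) hCs.le
            · have g1 : 0 ≤ T ^ 2 * R ^ (3 / 2 : ℝ) := by positivity
              have g2 : 0 ≤ N * L * T * q := by positivity
              rw [hM]
              linarith
    have f5 : Z ≤ 28 * (Cc + 192 * Cs) * T ^ (ε / 2 + 2 * δ) * M := by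
      have : Z = 28 * (‖CS X W‖ + 192 * (X * SD X W)) := by rw [hZ]; ring
      rw [this]
      nlinarith
    have f6 : K ^ 3 = (2688 * D₁) ^ 3 * T ^ (ε / 2) * (N : ℝ) ^ 3 * A ^ 6 := by
      have : (T ^ (ε / 6)) ^ 3 = T ^ (ε / 2) := by
        rw [← Real.rpow_natCast, ← Real.rpow_mul hT0.le]
        congr 1
        push_cast
        ring
      rw [hK, hDdef, ← this]
      ring
    have f7 : T ^ (ε / 2) * T ^ (ε / 2 + 2 * δ) = T ^ (ε + 2 * δ) := by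
      rw [← Real.rpow_add hT0]
      congr 1
      ring
    calc V ^ 6 * (L * R ^ 3) ≤ 8 * K ^ 3 * Z := hA2
      _ ≤ 8 * K ^ 3 * (28 * (Cc + 192 * Cs) * T ^ (ε / 2 + 2 * δ) * M) :=
          mul_le_mul_of_nonneg_left f5 (by positivity)
      _ = C₂ * A ^ 6 * (T ^ (ε / 2) * T ^ (ε / 2 + 2 * δ)) * ((N : ℝ) ^ 3 * M) := by
          rw [f6, hC₂]
          ring
      _ = C₂ * A ^ 6 * T ^ (ε + 2 * δ) * ((N : ℝ) ^ 3 * M) := by rw [f7]
      _ ≤ (C₁ + C₂) * A ^ 6 * T ^ (ε + 2 * δ) * ((N : ℝ) ^ 3 * M) := by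
          refine mul_le_mul_of_nonneg_right ?_ (by positivity)
          refine mul_le_mul_of_nonneg_right ?_ (by positivity)
          refine mul_le_mul_of_nonneg_right (by linarith) (by positivity)

end Pool.Agent.ZD
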